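import Pool.Agent.U517.PG.Game

/-!
# One-player percolation games with i.i.d. payoffs have a limit value (MP_5b044e_pr, Q1)

No orientation is assumed. Fix the frequencies with which the actions are used: the best total
payoff over the words of actions with exactly these frequencies is superadditive along a
deterministic displacement, so it grows linearly (Kingman's theorem for the i.i.d. field; Fekete's
lemma if the displacement is zero). Every word extends, at small cost, to a word with frequencies
in a fixed finite set, so the best average payoff converges to the supremum of these rates.
-/

set_option autoImplicit false

namespace Pool.Agent.Results.MP_5b044e_pr.OnePlayerLimitValue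

open MeasureTheory
open Pool.Agent.U517.PG

theorem result (d : ℕ) (I J : Type) [Finite I] [Nonempty I] [Finite J] [Nonempty J]
    {Ω : Type*} [MeasurableSpace Ω] (P : Measure Ω) [IsProbabilityMeasure P]
    (G : PercolationGame d I J P) (hiid : G.IID) (hone : G.OnePlayer) :
    G.HasLimitValue :=
  hasLimitValue G hiid hone

end Pool.Agent.Results.MP_5b044e_pr.OnePlayerLimitValue
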